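import Pool.Agent.H97.SD.Targets

/-!
# Row PK of the board `szd_modules`: the conditions on `k` and `N`
-/

set_option autoImplicit false

open Finset

namespace Pool.Agent.H96.SD

open Pool.Agent.H97.SD

theorem pf_PK : P_PK := by
  intro A k₀ hA
  have hA0 : 0 < A := by omega
  refine ⟨(k₀ + 1) * (4 * A * A) * A, ?_, ?_⟩
  · have h1 : 0 < (k₀ + 1) * (4 * A * A) * A := by positivity
    exact h1
  · intro n w a ha hw hn
    have haA : 0 < a * A := by positivity
    have h1 : (k₀ + 1) * (4 * A * A) ≤ w / (a * A) := by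
      rw [Nat.le_div_iff_mul_le haA]
      calc (k₀ + 1) * (4 * A * A) * (a * A) = (k₀ + 1) * (4 * A * A) * A * a := by ring
        _ ≤ w := hw
    have h2 : w ≤ n := by
      have h3 : 1 ≤ (k₀ + 1) * (4 * A * A) * A := by
        have h4 : 0 < (k₀ + 1) * (4 * A * A) * A := by positivity
        exact h4
      calc w = 1 * w := (one_mul w).symm
        _ ≤ (k₀ + 1) * (4 * A * A) * A * w := Nat.mul_le_mul_right _ h3
        _ ≤ n := hn
    have h5 : 1 ≤ 4 * A * A := by
      have h6 : 0 < 4 * A * A := by positivity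
      exact h6
    have h7 : k₀ + 1 ≤ w / (a * A) := by
      calc k₀ + 1 = (k₀ + 1) * 1 := (mul_one _).symm
        _ ≤ (k₀ + 1) * (4 * A * A) := Nat.mul_le_mul_left _ h5
        _ ≤ _ := h1
    refine ⟨by omega, by omega, Nat.div_le_div_right h2, ?_, ?_, Nat.div_mul_le_self _ _⟩
    · rw [Nat.le_div_iff_mul_le (by omega)]
      calc 1 * (4 * A * A) ≤ (k₀ + 1) * (4 * A * A) := Nat.mul_le_mul_right _ (by omega)
        _ ≤ _ := h1
    · rw [mul_assoc]
      exact Nat.div_mul_le_self _ _

end Pool.Agent.H96.SD
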