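import Pool.Agent.H97.SD.Targets

/-!
# Row SIZ of the board `szd_modules`: width, size and unsatisfiability of the formula
-/

set_option autoImplicit false

open Finset

namespace Pool.Agent.H96.SD

open Pool.Agent.H97.SD

variable {N M k a b : ℕ}

/-- The map from places to variables. -/
def pl (σ : Fin M → Fin k → Fin N) (c : Fin M) (u : Fin k × Fin a × Fin b) : BV N a b :=
  (σ c u.1, u.2)

/-- The clause of a pattern. -/
def AA (σ : Fin M → Fin k → Fin N) (c : Fin M) (π : Fin k × Fin a × Fin b → Bool) :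
    Clause (BV N a b) :=
  univ.image (fun u : Fin k × Fin a × Fin b => (pl σ c u, !(π u)))

theorem filter_eq (σ : Fin M → Fin k → Fin N) (c : Fin M) :
    (univ.filter (fun v : BV N a b => ∃ i, σ c i = v.1)) = univ.image (pl σ c) := by
  ext v
  simp only [mem_filter, mem_univ, true_and, mem_image, pl]
  constructor
  · rintro ⟨i, hi⟩
    exact ⟨(i, v.2), by rw [hi]⟩
  · rintro ⟨u, hu⟩
    exact ⟨u.1, by rw [← hu]⟩

theorem ax_eq (σ : Fin M → Fin k → Fin N) (c : Fin M) (z : BV N a b → Bool) :
    ax σ c z = AA σ c (fun u => z (pl σ c u)) := by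
  unfold ax AA
  rw [filter_eq, image_image]
  rfl

theorem card_AA (σ : Fin M → Fin k → Fin N) (c : Fin M) (π : Fin k × Fin a × Fin b → Bool) :
    (AA σ c π).card ≤ k * a * b := by
  unfold AA
  refine card_image_le.trans ?_
  simp only [card_univ, Fintype.card_prod, Fintype.card_fin]
  rw [mul_assoc]

theorem pf_SIZ : P_SIZ := by
  intro N M k a b σ h
  refine ⟨?_, ?_, ?_⟩
  · intro C hC
    unfold FF at hC
    obtain ⟨u, -, rfl⟩ := mem_image.mp hC
    rw [ax_eq]
    exact card_AA _ _ _
  · have h1 : FF a b σ h ⊆ (univ : Finset (Fin M)).biUnion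
        (fun c => (univ : Finset (Fin k × Fin a × Fin b → Bool)).image (AA σ c)) := by
      intro C hC
      unfold FF at hC
      obtain ⟨u, -, rfl⟩ := mem_image.mp hC
      rw [ax_eq]
      exact mem_biUnion.mpr ⟨u.1, mem_univ _, mem_image.mpr ⟨_, mem_univ _, rfl⟩⟩
    refine (card_le_card h1).trans (card_biUnion_le.trans ?_)
    refine (sum_le_sum (fun c _ => card_image_le)).trans ?_
    simp only [card_univ, Fintype.card_pi, Fintype.card_bool, prod_const, Fintype.card_prod,
      Fintype.card_fin, sum_const, smul_eq_mul]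
    rw [mul_assoc k a b]
  · intro h2 z
    obtain ⟨c, hc⟩ := h2 (Y z)
    refine ⟨ax σ c z, ?_, ?_⟩
    · unfold FF
      exact mem_image.mpr ⟨(c, z), mem_filter.mpr ⟨mem_univ _, hc⟩, rfl⟩
    · intro l hl
      unfold ax at hl
      obtain ⟨v, -, rfl⟩ := mem_image.mp hl
      simp

end Pool.Agent.H96.SD
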