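import Pool.Agent.H98.SD.Targets

/-!
# MP_e37c09_lc, SecondDichotomy. Row UNM: one `M` for all parameters
-/

set_option autoImplicit false

open Ordinal Cardinal Order Set
open scoped ZFSet

universe u

namespace Pool.Agent.H96.SD

open _root_.HD _root_.HD.SD

theorem pf_UNM : T_CDX.{u} → T_TRN.{u} → T_UNM.{u} := by
  intro hCDX hTRN en t L hs _ hx
  by_contra hcon
  push Not at hcon
  have hM : ∀ i : Ordinal.{u}, i < L.ord → ∃ x : ZFSet.{u}, x ⊆ L.ord.toZFSet ∧
      Spl en (succ L).ord x (max ℵ₀ (succ i.card)).ord := by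
    intro i hi
    refine hcon _ (le_max_left _ _) (max_lt hs.unc ?_)
    have h1 : i.card < L := Cardinal.lt_ord.1 hi
    exact (succ_le_of_lt (cantor i.card)).trans_lt (hs.lim _ h1)
  choose! y hy using hM
  obtain ⟨x, hxc, hod⟩ := hCDX en t L hs y (fun i hi => (hy i hi).1)
  obtain ⟨m, hm, hns⟩ := hx x hxc
  obtain ⟨c, hc1, hc2⟩ := (hTRN en hs.hen (y m) x (hod m hm)).2.2 _ _ (hy m hm).2
  refine hns ⟨c, fun i hi => hc1 i (hi.trans ?_), hc2⟩
  exact Cardinal.lt_ord.2 ((lt_succ m.card).trans_le (le_max_right _ _))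

end Pool.Agent.H96.SD
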